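import Pool.Agent.H752R3.PairsDefs
import Pool.Agent.H752R3.TowFinal
import Pool.Agent.Helper292.ForceCH

/-!
Implications among 22 selection properties with tau-covers: 61 of the 76 open pairs.
-/

set_option autoImplicit false
set_option linter.all false

namespace Pool.Agent.Results.MP_b17faa_gt.PairsSettled

open Set Pool.Agent.Helper185.Sel Pool.Agent.H752R3.Pairs

/-- pairs `(i, j)` with `i` implies `j` -/
def yesPairs : List (ℕ × ℕ) :=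
  [(1, 0), (1, 18), (5, 0), (5, 4), (5, 18), (9, 0), (9, 4), (9, 8), (9, 18)]

/-- pairs `(i, j)` for which the continuum hypothesis gives a set with `i` and without `j` -/
def noPairs : List (ℕ × ℕ) :=
  [(4, 10), (4, 11), (4, 17), (5, 10), (5, 11), (5, 17), (6, 10), (6, 11), (6, 17), (7, 11),
   (14, 10), (14, 11), (14, 17), (15, 17),
   (12, 0), (12, 1), (12, 5), (12, 18),
   (14, 0), (14, 1), (14, 4), (14, 5), (14, 18),
   (16, 0), (16, 1), (16, 4), (16, 5), (16, 8), (16, 9), (16, 18),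
   (0, 5), (0, 6), (0, 7), (0, 14), (0, 15),
   (1, 5), (1, 6), (1, 7), (1, 14), (1, 15),
   (2, 6), (2, 7), (2, 15), (3, 7),
   (12, 6), (12, 7), (12, 14), (12, 15),
   (13, 15), (18, 15), (19, 15), (20, 15)]

theorem good_imp {X : Set ℝ} (h : S1 (Ga X) (Ta X)) : S1 (Ga X) (Ga X) :=
  s1_gamma_gamma_of_good (adm_open X) (good_of_s1_gamma_tau (adm_open X) h)

theorem five_imp_four {X : Set ℝ} (h : S1 (Ta X) (Ta X)) : S1 (Ta X) (Ga X) :=
  s1_tau_gamma_of_s1_tau_tau (adm_open X) h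

theorem nine_imp_eight {X : Set ℝ} (h : S1 (Om X) (Ta X)) : S1 (Om X) (Ga X) :=
  s1_omega_gamma_of_s1_omega_tau (adm_open X) (interClosed_open X) h

theorem eight_imp_four {X : Set ℝ} (hX : X.Nonempty) (h : S1 (Om X) (Ga X)) :
    S1 (Ta X) (Ga X) := by
  have : Nonempty X := hX.to_subtype
  exact h.mono_left tau_sub_omega

theorem four_imp_zero {X : Set ℝ} (h : S1 (Ta X) (Ga X)) : S1 (Ga X) (Ga X) :=
  h.mono_left gamma_sub_tau

theorem yes {X : Set ℝ} (hX : X.Nonempty) : ∀ q ∈ yesPairs, Prp X q.1 → Prp X q.2 := by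
  intro q hq
  simp only [yesPairs, List.mem_cons, List.mem_nil_iff, or_false] at hq
  rcases hq with rfl | rfl | rfl | rfl | rfl | rfl | rfl | rfl | rfl
  · exact good_imp
  · exact fun h => ufin_of_s1 (good_imp h)
  · exact fun h => four_imp_zero (five_imp_four h)
  · exact five_imp_four
  · exact fun h => ufin_of_s1 (four_imp_zero (five_imp_four h))
  · exact fun h => four_imp_zero (eight_imp_four hX (nine_imp_eight h))
  · exact fun h => eight_imp_four hX (nine_imp_eight h)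
  · exact nine_imp_eight
  · exact fun h => ufin_of_s1 (four_imp_zero (eight_imp_four hX (nine_imp_eight h)))

theorem no (hCH : Cardinal.aleph 1 = Cardinal.continuum.{0}) :
    ∀ q ∈ noPairs, ∃ X : Set ℝ, X.Nonempty ∧ Prp X q.1 ∧ ¬ Prp X q.2 := by
  obtain ⟨X, hX, h1, h2, h3⟩ := sierp_example hCH
  obtain ⟨Y, hY, k1, k2, k3⟩ := blk_example hCH
  obtain ⟨W, hW, w0, nw7, nw15⟩ := Pool.Agent.H752R3.Tow.tower_example hCH
  have : Nonempty X := hX.to_subtype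
  have : Nonempty Y := hY.to_subtype
  have : Nonempty W := hW.to_subtype
  have w1 : S1 (Ga W) (Ta W) := w0.mono_right gamma_sub_tau
  have w2 : S1 (Ga W) (Om W) := w1.mono_right tau_sub_omega
  have w3 : S1 (Ga W) (OO W) := w2.mono_right (fun U hU => ⟨hU.1, hU.2.1⟩)
  have w12 : Sfin (Ga W) (Ta W) := sfin_of_s1' w1
  have w13 : Sfin (Ga W) (Om W) := sfin_of_s1' w2
  have w18 : Ufin (Ga W) (Ga W) := ufin_of_s1 w0
  have w19 : Ufin (Ga W) (Ta W) := ufin_of_s1 w1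
  have w20 : Ufin (Ga W) (Om W) := ufin_of_s1 w2
  have nw6 : ¬ S1 (Ta W) (Om W) := fun h => nw7 (h.mono_right (fun U hU => ⟨hU.1, hU.2.1⟩))
  have nw5 : ¬ S1 (Ta W) (Ta W) := fun h => nw6 (h.mono_right tau_sub_omega)
  have nw14 : ¬ Sfin (Ta W) (Ta W) := fun h => nw15 (fun U hU => by
    obtain ⟨F, hF, hFT⟩ := h U hU
    exact ⟨F, hF, tau_sub_omega hFT⟩)
  have p5 : S1 (Ta X) (Ta X) := h1.mono_right gamma_sub_tau
  have p6 : S1 (Ta X) (Om X) := p5.mono_right tau_sub_omega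
  have p7 : S1 (Ta X) (OO X) := p6.mono_right (fun U hU => ⟨hU.1, hU.2.1⟩)
  have p14 : Sfin (Ta X) (Ta X) := sfin_of_s1' p5
  have p15 : Sfin (Ta X) (Om X) := sfin_of_s1' p6
  have n10 : ¬ S1 (Om X) (Om X) := fun h => h3 (sfin_of_s1' h)
  have q14 : Sfin (Ta Y) (Ta Y) := fun U hU => k1 U (fun n => tau_sub_omega (hU n))
  have q12 : Sfin (Ga Y) (Ta Y) := fun U hU => q14 U (fun n => gamma_sub_tau (hU n))
  have m0 : ¬ S1 (Ga Y) (Ga Y) := fun h => k3 (ufin_of_s1 h)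
  have m1 : ¬ S1 (Ga Y) (Ta Y) := fun h => m0 (good_imp h)
  have m4 : ¬ S1 (Ta Y) (Ga Y) := fun h => m0 (four_imp_zero h)
  have m5 : ¬ S1 (Ta Y) (Ta Y) := fun h => m4 (five_imp_four h)
  have m8 : ¬ S1 (Om Y) (Ga Y) := fun h => m4 (eight_imp_four hY h)
  have m9 : ¬ S1 (Om Y) (Ta Y) := fun h => m8 (nine_imp_eight h)
  intro q hq
  simp only [noPairs, List.mem_cons, List.mem_nil_iff, or_false] at hq
  rcases hq with rfl | rfl | rfl | rfl | rfl | rfl | rfl | rfl | rfl | rfl | rfl | rfl | rfl | rfl |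
    rfl | rfl | rfl | rfl | rfl | rfl | rfl | rfl | rfl | rfl | rfl | rfl | rfl | rfl | rfl | rfl |
    rfl | rfl | rfl | rfl | rfl | rfl | rfl | rfl | rfl | rfl | rfl | rfl | rfl | rfl | rfl | rfl |
    rfl | rfl | rfl | rfl | rfl | rfl
  · exact ⟨X, hX, h1, n10⟩
  · exact ⟨X, hX, h1, h2⟩
  · exact ⟨X, hX, h1, h3⟩
  · exact ⟨X, hX, p5, n10⟩
  · exact ⟨X, hX, p5, h2⟩
  · exact ⟨X, hX, p5, h3⟩
  · exact ⟨X, hX, p6, n10⟩
  · exact ⟨X, hX, p6, h2⟩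
  · exact ⟨X, hX, p6, h3⟩
  · exact ⟨X, hX, p7, h2⟩
  · exact ⟨X, hX, p14, n10⟩
  · exact ⟨X, hX, p14, h2⟩
  · exact ⟨X, hX, p14, h3⟩
  · exact ⟨X, hX, p15, h3⟩
  · exact ⟨Y, hY, q12, m0⟩
  · exact ⟨Y, hY, q12, m1⟩
  · exact ⟨Y, hY, q12, m5⟩
  · exact ⟨Y, hY, q12, k3⟩
  · exact ⟨Y, hY, q14, m0⟩
  · exact ⟨Y, hY, q14, m1⟩
  · exact ⟨Y, hY, q14, m4⟩
  · exact ⟨Y, hY, q14, m5⟩
  · exact ⟨Y, hY, q14, k3⟩
  · exact ⟨Y, hY, k1, m0⟩
  · exact ⟨Y, hY, k1, m1⟩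
  · exact ⟨Y, hY, k1, m4⟩
  · exact ⟨Y, hY, k1, m5⟩
  · exact ⟨Y, hY, k1, m8⟩
  · exact ⟨Y, hY, k1, m9⟩
  · exact ⟨Y, hY, k1, k3⟩
  · exact ⟨W, hW, w0, nw5⟩
  · exact ⟨W, hW, w0, nw6⟩
  · exact ⟨W, hW, w0, nw7⟩
  · exact ⟨W, hW, w0, nw14⟩
  · exact ⟨W, hW, w0, nw15⟩
  · exact ⟨W, hW, w1, nw5⟩
  · exact ⟨W, hW, w1, nw6⟩
  · exact ⟨W, hW, w1, nw7⟩
  · exact ⟨W, hW, w1, nw14⟩
  · exact ⟨W, hW, w1, nw15⟩
  · exact ⟨W, hW, w2, nw6⟩
  · exact ⟨W, hW, w2, nw7⟩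
  · exact ⟨W, hW, w2, nw15⟩
  · exact ⟨W, hW, w3, nw7⟩
  · exact ⟨W, hW, w12, nw6⟩
  · exact ⟨W, hW, w12, nw7⟩
  · exact ⟨W, hW, w12, nw14⟩
  · exact ⟨W, hW, w12, nw15⟩
  · exact ⟨W, hW, w13, nw15⟩
  · exact ⟨W, hW, w18, nw15⟩
  · exact ⟨W, hW, w19, nw15⟩
  · exact ⟨W, hW, w20, nw15⟩

/-- (1) For the nine pairs `(i, j)` of `yesPairs` every nonempty set of reals with property `i` has
property `j`. (2) The continuum hypothesis can be forced, with `ω₁` preserved. (3) The continuum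
hypothesis implies that for the fifty-two pairs `(i, j)` of `noPairs` there is a nonempty set of reals
with property `i` and without property `j`. -/
theorem result :
    (∀ q ∈ yesPairs, ∀ X : Set ℝ, X.Nonempty → Prp X q.1 → Prp X q.2) ∧
    (∃ (P : Type) (_ : Preorder P), Nonempty P ∧ ∀ p : P,
      p ∈ Pool.Agent.Helper292.ForceCH.OmegaOnePreserved P ∧
      p ∈ Pool.Agent.Helper292.ForceCH.CHHolds P) ∧
    (Cardinal.aleph 1 = Cardinal.continuum.{0} →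
      ∀ q ∈ noPairs, ∃ X : Set ℝ, X.Nonempty ∧ Prp X q.1 ∧ ¬ Prp X q.2) := by
  refine ⟨fun q hq X hX => yes hX q hq, ?_, no⟩
  obtain ⟨P, i, h1, h2⟩ := Pool.Agent.Helper292.ForceCH.exists_forcing
  exact ⟨P, i, h1, fun p => ⟨(h2 p).1, (h2 p).2.2⟩⟩

end Pool.Agent.Results.MP_b17faa_gt.PairsSettled
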